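import Mathlib
import Pool.Agent.R578.OPDn

/-!
# MP_4dd93e_co: outerplanar graphs have uniformly bounded distance number

Every outerplanar graph has a (non-degenerate) drawing with at most `11` distinct edge lengths.
-/

namespace Pool.Agent.Results.MP_4dd93e_co.AtMostEleven

/-- `G` is outerplanar: its vertices can be arranged around a circle (listed in a linear order `e`)
so that no two edges, drawn as chords, cross (i.e. no two edges have alternating endpoints). -/
def IsOuterplanar {V : Type*} (G : SimpleGraph V) : Prop :=
  ∃ e : V → ℕ, Function.Injective e ∧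
    ∀ a b c d, e a < e b → e b < e c → e c < e d → G.Adj a c → ¬ G.Adj b d

/-- A (non-degenerate) straight-line drawing: the vertices are mapped injectively to the plane and
no vertex lies in the relative interior of an edge segment (edges may cross). -/
def IsDrawing {V : Type*} (G : SimpleGraph V) (p : V → EuclideanSpace ℝ (Fin 2)) : Prop :=
  Function.Injective p ∧ ∀ u v w, G.Adj u v → p w ∉ openSegment ℝ (p u) (p v)

/-- The set of edge lengths of `p`. -/
def edgeLengths {V : Type*} (G : SimpleGraph V) (p : V → EuclideanSpace ℝ (Fin 2)) : Set ℝ :=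
  {r | ∃ u v, G.Adj u v ∧ dist (p u) (p v) = r}

/-- The distance number: the least number of distinct edge lengths of a drawing. -/
noncomputable def dn {V : Type*} (G : SimpleGraph V) : ℕ :=
  sInf {k | ∃ p : V → EuclideanSpace ℝ (Fin 2), IsDrawing G p ∧ (edgeLengths G p).ncard = k}

/-- **Main result.** Every finite outerplanar graph has a drawing with at most `11` distinct edge
lengths; in particular its distance number is at most `11`. -/
theorem result {V : Type*} [Finite V] (G : SimpleGraph V) (hG : IsOuterplanar G) :
    (∃ p : V → EuclideanSpace ℝ (Fin 2), IsDrawing G p ∧ (edgeLengths G p).ncard ≤ 11) ∧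
      dn G ≤ 11 := by
  obtain ⟨e, he, hc⟩ := hG
  obtain ⟨p, len, hp, hseg, hlen⟩ := Pool.Agent.R578.OP.draw_eleven G e he hc
  have hsub : edgeLengths G p ⊆ Set.range len := by
    rintro r ⟨u, v, huv, rfl⟩
    obtain ⟨i, hi⟩ := hlen u v huv
    exact ⟨i, hi.symm⟩
  have hcard : (edgeLengths G p).ncard ≤ 11 := by
    calc (edgeLengths G p).ncard ≤ (Set.range len).ncard :=
          Set.ncard_le_ncard hsub (Set.finite_range _)
      _ = (len '' Set.univ).ncard := by rw [Set.image_univ]
      _ ≤ (Set.univ : Set (Fin 11)).ncard := Set.ncard_image_le Set.finite_univ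
      _ = 11 := by rw [Set.ncard_univ]; simp
  refine ⟨⟨p, ⟨hp, hseg⟩, hcard⟩, ?_⟩
  have hmem : (edgeLengths G p).ncard ∈ {k | ∃ p : V → EuclideanSpace ℝ (Fin 2),
      IsDrawing G p ∧ (edgeLengths G p).ncard = k} := ⟨p, ⟨hp, hseg⟩, rfl⟩
  exact (Nat.sInf_le hmem).trans hcard

end Pool.Agent.Results.MP_4dd93e_co.AtMostEleven
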